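import Pool.Agent.H29.SPL.BelowOwensProof

set_option autoImplicit false

open Filter Topology

namespace Pool.Agent.Results.MP_aca8be_co.BelowOwens

/-- For all large `n` we have `cr₂(K_n) / (n choose 4) ≤ 0.1016 < 7/64 = 0.109375`; in particular
the limit `c` of `cr₂(K_n) / (n choose 4)` is smaller than `7/64`.

The drawings: cut the vertex set into 32 clusters of nearly equal size. In both planes the vertices
lie on a line, cluster after cluster, but the clusters come in a different order in the two planes.
Every edge is drawn as an upper or lower arc in the first or in the second plane; which one is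
decided, by the table `tab`, by the clusters of its two ends. -/
theorem result :
    (∃ N : ℕ, ∀ n ≥ N, cr2 (⊤ : SimpleGraph (Fin n)) ≠ ⊤ ∧
      ((cr2 (⊤ : SimpleGraph (Fin n))).toNat : ℝ) / (n.choose 4 : ℝ) ≤ 1016 / 10000) ∧
    ∀ c : ℝ, Tendsto (fun n : ℕ => ((cr2 (⊤ : SimpleGraph (Fin n))).toNat : ℝ) /
      (n.choose 4 : ℝ)) atTop (𝓝 c) → c < 7 / 64 :=
  result_proof

end Pool.Agent.Results.MP_aca8be_co.BelowOwens
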